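import Mathlib
import Pool.Agent.H52.KronCyc

set_option autoImplicit false
open Polynomial Pool.Agent.H52.KronCyc

namespace Pool.Agent.Results.MP_68ef1b_nt.Counter

/-- The height: the largest absolute value of a coefficient. -/
def height (f : ℤ[X]) : ℕ := f.support.sup fun i => (f.coeff i).natAbs

/-- The heights of the divisors of x^n - 1. -/
def heights (n : ℕ) : Set ℕ := {h | ∃ f : ℤ[X], f ∣ X ^ n - 1 ∧ height f = h}

/-- B(n), the largest height of a divisor of x^n - 1. -/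
noncomputable def B (n : ℕ) : ℕ := sSup (heights n)

def tab : ℕ → List ℕ × List ℕ
  | 1 => ([1], [])
  | 5 => ([5], [1])
  | 7 => ([7], [1])
  | 13 => ([13], [1])
  | 35 => ([1, 35], [5, 7])
  | 65 => ([1, 65], [5, 13])
  | 91 => ([1, 91], [7, 13])
  | 169 => ([169], [13])
  | 455 => ([5, 7, 13, 455], [1, 35, 65, 91])
  | 845 => ([13, 845], [65, 169])
  | 1183 => ([13, 1183], [91, 169])
  | 5915 => ([65, 91, 169, 5915], [13, 455, 845, 1183])
  | _ => ([], [])

def V (T d : ℕ) : ℕ :=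
  ((tab d).1.map fun e => T ^ e - 1).prod / ((tab d).2.map fun e => T ^ e - 1).prod

def ds : List ℕ := [5915, 1183, 845, 455, 169, 91, 65, 35, 13, 7, 5, 1]

def ds0 : List ℕ := [455, 91, 65, 35, 13, 7, 5, 1]

lemma V_big : ∀ d ∈ ds0.toFinset, (V (2 ^ 291) d : ℤ) = (cyclotomic d ℤ).eval ((2 ^ 291 : ℕ) : ℤ) :=
  cyc_eval (2 ^ 291) (by norm_num) _ _ (by decide +kernel)

lemma V_small : ∀ d ∈ ds.toFinset, (V (2 ^ 41) d : ℤ) = (cyclotomic d ℤ).eval ((2 ^ 41 : ℕ) : ℤ) :=
  cyc_eval (2 ^ 41) (by norm_num) _ _ (by decide +kernel)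

lemma small0 : ∀ d ∈ ds0, Bd 12822 (cyclotomic d ℤ) := by
  have h : ∀ d ∈ ds0, 0 < d ∧ d.totient < 289 ∧
      check (2 ^ 290 * R (290 + 1) 289) ((12822 + 2 ^ 290) * R (290 + 1) 289) (V (2 ^ 291) d)
        = true := by decide +kernel
  intro d hd
  obtain ⟨h0, h1, h2⟩ := h d hd
  refine check_sound 290 289 _ (by rwa [natDegree_cyclotomic]) _ _ _ (cyc_bd d h0) ?_ ?_ h2
  · have h3 : 2 ^ d.totient ≤ 2 ^ 288 := Nat.pow_le_pow_right (by norm_num) (by omega)
    exact lt_of_le_of_lt (Nat.add_le_add_right h3 _) (by decide +kernel)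
  · rw [V_big d (List.mem_toFinset.2 hd)]; norm_num

lemma small1 (d : ℕ) (hd : d ∈ ds0) (h : 13 ∣ d) : Bd 12822 (cyclotomic (d * 13) ℤ) := by
  rw [← cyclotomic_expand_eq_cyclotomic (by norm_num) h]
  exact Bd_expand (by norm_num) (small0 d hd)

lemma small : ∀ d ∈ ds, Bd 12822 (cyclotomic d ℤ) := by
  have h : ∀ d ∈ ds, d ∈ ds0 ∨ ∃ e ∈ ds0, 13 ∣ e ∧ d = e * 13 := by decide
  intro d hd
  rcases h d hd with h | ⟨e, he, h1, rfl⟩
  · exact small0 d h
  · exact small1 e he h1

def forceL : List ℕ → (List ℕ → Bool) → Bool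
  | [], k => k []
  | a :: L, k => force a fun x => forceL L fun M => k (x :: M)

lemma forceL_eq (L : List ℕ) : ∀ k : List ℕ → Bool, forceL L k = k L := by
  induction L with
  | nil => intro k; rfl
  | cons a L ih => intro k; simp only [forceL, force_eq, ih]

lemma run : (force (2 ^ 40 * R (40 + 1) 5916) fun t =>
    force ((12822 + 2 ^ 40) * R (40 + 1) 5916) fun c =>
      forceL (ds.map (V (2 ^ 41))) fun L => dfs t c L 1) = true := by decide +kernel

lemma prod_gen (n : ℕ) (hn : 0 < n) (l : List ℕ) (hl : l.Nodup) (h1 : n.divisors ⊆ l.toFinset)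
    (h2 : ∀ d ∈ l, d ∣ n) (g : ℤ[X]) :
    g ∣ (l.map fun d => cyclotomic d ℤ).prod ↔ g ∣ X ^ n - 1 := by
  have : n.divisors = l.toFinset := Finset.Subset.antisymm h1 fun d hd =>
    Nat.mem_divisors.2 ⟨h2 d (List.mem_toFinset.1 hd), hn.ne'⟩
  rw [← prod_cyclotomic_eq_X_pow_sub_one hn ℤ, this, List.prod_toFinset _ hl]

lemma dvd_ds (g : ℤ[X]) : g ∣ (ds.map fun d => cyclotomic d ℤ).prod ↔ g ∣ X ^ 5915 - 1 :=
  prod_gen 5915 (by norm_num) ds (by decide +kernel) (by decide +kernel) (by decide +kernel) g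

lemma deg_gen (n : ℕ) (hn : 0 < n) (f : ℤ[X]) (h : f ∣ X ^ n - 1) : f.natDegree < n + 1 := by
  have h1 := natDegree_le_of_dvd h (X_pow_sub_C_ne_zero hn 1)
  have h2 : (X ^ n - 1 : ℤ[X]).natDegree = n := natDegree_X_pow_sub_C
  omega

lemma all_bd (g : ℤ[X]) (hg : g ∣ X ^ 5915 - 1) : Bd 12822 g := by
  have h := dfs_sound 40 5916 12822 (by norm_num)
    (ds.map fun d => (cyclotomic d ℤ, V (2 ^ 41) d)) (by
      intro x hx
      obtain ⟨d, hd, rfl⟩ := List.mem_map.1 hx
      have h0 : ∀ d ∈ ds, 0 < d := by decide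
      refine ⟨(cyclotomic.irreducible (h0 d hd)).prime, small d hd, ?_⟩
      show (V (2 ^ 41) d : ℤ) = _
      rw [V_small d (List.mem_toFinset.2 hd)]; norm_num) 1 1 (by
      intro i
      rw [coeff_one]
      split_ifs <;> norm_num) (by simp) (by
      simp only [List.map_map, Function.comp_def, natDegree_cyclotomic, natDegree_one]
      decide +kernel) (by
      have := run
      simp only [force_eq, forceL_eq] at this
      simpa only [List.map_map, Function.comp_def] using this) g (by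
      simp only [List.map_map, Function.comp_def]
      exact (dvd_ds g).2 hg)
  rwa [one_mul] at h

noncomputable def F : ℤ[X] := ([1183, 845, 455, 13, 7, 5].map fun d => cyclotomic d ℤ).prod

lemma F_dvd : F ∣ X ^ 5915 - 1 := by
  have h : F ∣ (ds.map fun d => cyclotomic d ℤ).prod :=
    List.Sublist.prod_dvd_prod (List.Sublist.map _ (by decide +kernel))
  exact (dvd_ds F).1 h

lemma F_coeff : F.coeff 597 = 12822 := by
  have hb := all_bd F F_dvd
  have hd : F.natDegree < 5916 := deg_gen 5915 (by norm_num) F F_dvd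
  have he : ((([1183, 845, 455, 13, 7, 5].map (V (2 ^ 41))).prod : ℕ) : ℤ) =
      F.eval (2 ^ (40 + 1)) := by
    have hv : ∀ d ∈ ds, (V (2 ^ 41) d : ℤ) = (cyclotomic d ℤ).eval (2 ^ (40 + 1)) := by
      intro d hd
      rw [V_small d (List.mem_toFinset.2 hd)]; norm_num
    simp only [F, List.map_cons, List.map_nil, List.prod_cons, List.prod_nil, eval_mul, eval_one,
      Nat.cast_mul, Nat.cast_one]
    rw [hv _ (by decide), hv _ (by decide), hv _ (by decide), hv _ (by decide), hv _ (by decide),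
      hv _ (by decide)]
  have h := shifted 40 5916 F hd (2 ^ 40)
    (([1183, 845, 455, 13, 7, 5].map (V (2 ^ 41))).prod + 2 ^ 40 * R (40 + 1) 5916)
    (by rw [Nat.cast_add, he, Nat.cast_mul]) (fun i => by
      have := abs_le.1 (hb i)
      push_cast at this ⊢
      constructor <;> linarith [this.1, this.2]) 597 (by norm_num)
  have h2 : (([1183, 845, 455, 13, 7, 5].map (V (2 ^ 41))).prod + 2 ^ 40 * R (40 + 1) 5916) /
    (2 ^ (40 + 1)) ^ 597 % 2 ^ (40 + 1) = 12822 + 2 ^ 40 := by decide +kernel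
  rw [h2] at h
  push_cast at h
  linarith

lemma height_le {f : ℤ[X]} {b : ℕ} (h : Bd b f) : height f ≤ b :=
  Finset.sup_le fun i _ => by
    have := h i
    rw [Int.abs_eq_natAbs] at this
    exact_mod_cast this

lemma greatest : IsGreatest (heights 5915) 12822 := by
  refine ⟨⟨F, F_dvd, le_antisymm (height_le (all_bd F F_dvd)) ?_⟩, ?_⟩
  · have h : (F.coeff 597).natAbs ≤ height F :=
      Finset.le_sup (f := fun i => (F.coeff i).natAbs) (by rw [mem_support_iff, F_coeff]; norm_num)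
    rwa [F_coeff] at h
  · rintro _ ⟨f, hf, rfl⟩
    exact height_le (all_bd f hf)

theorem result : IsGreatest (heights (5 * 7 * 13 ^ 2)) 12822 ∧
    ∃ p q r b : ℕ, p.Prime ∧ q.Prime ∧ r.Prime ∧ p < q ∧ q < r ∧ 2 ≤ b ∧
      ¬ p ∣ B (p * q * r ^ b) := by
  refine ⟨greatest, 5, 7, 13, 2, by norm_num, by norm_num, by norm_num, by norm_num, by norm_num,
    le_rfl, ?_⟩
  have : B (5 * 7 * 13 ^ 2) = 12822 := greatest.csSup_eq
  rw [this]; norm_num

end Pool.Agent.Results.MP_68ef1b_nt.Counter
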